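import Pool.Agent.H55.Tilt.Root

/-! The field `ℚ_p(ζ_{p^∞})`. -/

set_option autoImplicit false

namespace Pool.Agent.H55.Tilt

open Polynomial Pool.Agent.H92.Tilt

open scoped IntermediateField

variable {p : ℕ} [hp : Fact p.Prime]

theorem prim_iff (x : PadicAlgCl p) (m : ℕ) (h1 : x ^ p ^ (m + 1) = 1) (h2 : x ^ p ^ m ≠ 1) :
    IsPrimitiveRoot x (p ^ (m + 1)) := by
  rw [← orderOf_eq_prime_pow h2 h1]
  exact IsPrimitiveRoot.orderOf x

theorem norm_p_alg' : ‖(p : PadicAlgCl p)‖ = (p : ℝ)⁻¹ := by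
  have := norm_algebraMap (p := p) (p : ℚ_[p])
  rw [map_natCast] at this
  rw [this, Padic.norm_p]

theorem exists_zeta (N : ℕ) (z : PadicAlgCl p) (h1 : z ^ p ^ (N + 1) = 1) (h2 : z ^ p ^ N ≠ 1) :
    ∃ ζ : ℕ → PadicAlgCl p, (∀ n, IsPrimitiveRoot (ζ n) (p ^ (n + 1))) ∧
      (∀ n, ζ (n + 1) ^ p = ζ n) ∧ ζ N = z ∧ ζ 0 = z ^ p ^ N := by
  have hex : ∀ x : PadicAlgCl p, ∃ y, y ^ p = x := fun x =>
    IsAlgClosed.exists_pow_nat_eq x hp.out.pos
  choose f hf using hex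
  let η : ℕ → PadicAlgCl p := fun n => f^[n] z
  have hη : ∀ n, η (n + 1) ^ p = η n := by
    intro n
    change (f^[n + 1] z) ^ p = f^[n] z
    rw [Function.iterate_succ_apply', hf]
  have hηz : ∀ n, η n ^ p ^ n = z := by
    intro n
    induction n with
    | zero => simp [η]
    | succ n ih => rw [pow_succ', pow_mul, hη, ih]
  refine ⟨fun n => η n ^ p ^ N, ?_, ?_, ?_, ?_⟩
  · intro n
    apply prim_iff
    · rw [← pow_mul, show p ^ N * p ^ (n + 1) = p ^ n * p ^ (N + 1) by ring, pow_mul, hηz, h1]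
    · rw [← pow_mul, mul_comm, pow_mul, hηz]
      exact h2
  · intro n
    change (η (n + 1) ^ p ^ N) ^ p = η n ^ p ^ N
    rw [← pow_mul, mul_comm, pow_mul, hη]
  · exact hηz N
  · rfl

section

variable {ζ : ℕ → PadicAlgCl p} (hζ : ∀ n, IsPrimitiveRoot (ζ n) (p ^ (n + 1)))
  (hpow : ∀ n, ζ (n + 1) ^ p = ζ n)

include hζ

theorem zeta_mem (n : ℕ) : ζ n ∈ KCyc p :=
  IntermediateField.subset_adjoin _ _ ⟨n + 1, (hζ n).pow_eq_one⟩

theorem zeta_norm (n : ℕ) : ‖ζ n‖ = 1 := by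
  have h2 : ‖ζ n‖ ^ (p ^ (n + 1)) = 1 := by rw [← norm_pow, (hζ n).pow_eq_one, norm_one]
  exact (pow_eq_one_iff_of_nonneg (norm_nonneg _) (pow_pos hp.out.pos _).ne').1 h2

theorem zeta_poly (n : ℕ) (x : PadicAlgCl p) (hx : x ∈ ℚ_[p]⟮ζ n - 1⟯) :
    ∃ P : Polynomial ℚ_[p], P.natDegree < (p - 1) * p ^ n ∧ aeval (ζ n - 1) P = x := by
  have hdeg : ((cyclotomic (p ^ (n + 1)) ℚ_[p]).comp (X + C 1)).natDegree = (p - 1) * p ^ n := by
    rw [natDegree_comp, natDegree_X_add_C, mul_one, natDegree_cyclotomic,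
      Nat.totient_prime_pow_succ hp.out, mul_comm]
  have hpos : 0 < (p - 1) * p ^ n := by
    have := hp.out.one_lt
    exact Nat.mul_pos (by omega) (pow_pos hp.out.pos n)
  have h := exists_poly_lt (ζ n - 1) x hx ((cyclotomic (p ^ (n + 1)) ℚ_[p]).comp (X + C 1))
    ((cyclotomic.monic _ _).comp_X_add_C 1)
    (by
      rw [aeval_comp]
      have h1 : aeval (ζ n - 1) (X + C 1 : Polynomial ℚ_[p]) = ζ n := by simp
      rw [h1]
      have h2 := (isRoot_cyclotomic_iff (R := PadicAlgCl p) (n := p ^ (n + 1)) (μ := ζ n)).2 (hζ n)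
      rw [← map_cyclotomic (p ^ (n + 1)) (algebraMap ℚ_[p] (PadicAlgCl p)), IsRoot, eval_map] at h2
      exact h2)
    (by rw [hdeg]; exact hpos)
  rwa [hdeg] at h

include hpow

theorem sysC : Sys (KCyc p) (p - 1) (fun n => ⟨ζ n - 1, sub_mem (zeta_mem hζ n) (one_mem _)⟩) where
  dpos := by
    have := hp.out.one_lt
    omega
  nrm := fun n => norm_sub_one n (ζ n) (hζ n)
  pow := fun n => by
    change ‖(ζ (n + 1) - 1) ^ p - (ζ n - 1)‖ ≤ ‖ζ 0 - 1‖
    have hple : (p : ℝ)⁻¹ ≤ ‖ζ 0 - 1‖ := by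
      have h2 := norm_sub_one 0 (ζ 0) (hζ 0)
      rw [pow_zero, mul_one] at h2
      have hle : ‖ζ 0 - 1‖ ≤ 1 := by
        have := PadicAlgCl.isNonarchimedean p (ζ 0) (-1)
        rw [← sub_eq_add_neg, norm_neg, norm_one, zeta_norm hζ, max_self] at this
        exact this
      rw [← h2]
      apply pow_le_of_le_one (norm_nonneg _) hle
      have := hp.out.one_lt
      omega
    have h1 := add_pow_prime_eq hp.out (ζ (n + 1)) (-1)
    rw [← sub_eq_add_neg, hpow] at h1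
    have h2 : (ζ (n + 1) - 1) ^ p - (ζ n - 1) = ((-1) ^ p + 1) +
        p * (ζ (n + 1) * -1 * ∑ k ∈ Finset.Ioo 0 p, ζ (n + 1) ^ (k - 1) * (-1) ^ (p - k - 1) *
          ((p.choose k / p : ℕ) : PadicAlgCl p)) := by
      rw [h1]; ring
    rw [h2]
    refine (PadicAlgCl.isNonarchimedean p _ _).trans (max_le ?_ ?_)
    · rcases hp.out.eq_two_or_odd' with h3 | h3
      · subst h3
        have h4 : ((-1 : PadicAlgCl 2) ^ 2 + 1) = ((2 : ℕ) : PadicAlgCl 2) := by norm_num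
        rw [h4, norm_p_alg']
        exact hple
      · rw [h3.neg_one_pow, neg_add_cancel, norm_zero]
        exact norm_nonneg _
    · rw [norm_mul, norm_p_alg']
      refine (mul_le_of_le_one_right (by positivity) ?_).trans hple
      rw [norm_mul, norm_mul, zeta_norm hζ, norm_neg, norm_one, one_mul, one_mul]
      apply IsUltrametricDist.norm_sum_le_of_forall_le_of_nonneg zero_le_one
      intro k _
      rw [norm_mul, norm_mul, norm_pow, norm_pow, zeta_norm hζ, norm_neg, norm_one, one_pow,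
        one_pow, one_mul, one_mul]
      exact IsUltrametricDist.norm_natCast_le_one _ _
  gen := fun x => by
    have hmem1 : ∀ n, ζ n ∈ ℚ_[p]⟮ζ n - 1⟯ := by
      intro n
      have := add_mem (IntermediateField.mem_adjoin_simple_self ℚ_[p] (ζ n - 1))
        (one_mem ℚ_[p]⟮ζ n - 1⟯)
      rwa [sub_add_cancel] at this
    obtain ⟨n, hn⟩ := gen_union {z : PadicAlgCl p | ∃ n : ℕ, z ^ p ^ n = 1} (fun n => ζ n - 1)
      (by
        intro n
        apply sub_mem _ (one_mem _)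
        rw [← hpow n]
        exact pow_mem (hmem1 (n + 1)) p)
      (by
        rintro z ⟨n, hz⟩
        refine ⟨n, ?_⟩
        have hz' : z ^ p ^ (n + 1) = 1 := by rw [pow_succ, pow_mul, hz, one_pow]
        obtain ⟨i, _, rfl⟩ := (hζ n).eq_pow_of_pow_eq_one hz'
        exact pow_mem (hmem1 n) i)
      x x.2
    obtain ⟨P, hP, hx⟩ := zeta_poly hζ n x hn
    exact ⟨n, P, hP, hx⟩

end

theorem exists_prim (N : ℕ) : ∃ z : PadicAlgCl p, z ^ p ^ (N + 1) = 1 ∧ z ^ p ^ N ≠ 1 := by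
  obtain ⟨z, hz⟩ := IsAlgClosed.exists_root (cyclotomic (p ^ (N + 1)) (PadicAlgCl p)) (by
    rw [degree_cyclotomic]
    have : 0 < (p ^ (N + 1)).totient := Nat.totient_pos.2 (pow_pos hp.out.pos _)
    exact_mod_cast this.ne')
  rw [isRoot_cyclotomic_iff] at hz
  refine ⟨z, hz.pow_eq_one, ?_⟩
  intro h
  have h2 := hz.dvd_of_pow_eq_one _ h
  have h3 := Nat.le_of_dvd (pow_pos hp.out.pos N) h2
  have h4 : p ^ N < p ^ (N + 1) := Nat.pow_lt_pow_right hp.out.one_lt (Nat.lt_succ_self N)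
  omega

end Pool.Agent.H55.Tilt
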