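import Pool.Agent.H92.Tilt.Tower

/-! Codes of the closed sentences. -/

set_option autoImplicit false

namespace Pool.Agent.H55.Tilt

open Pool.Agent.H92.Tilt

/-- implication -/
def imp {k : ℕ} (φ ψ : Fm k) : Fm k := Fm.neg (Fm.and φ (Fm.neg ψ))

/-- code of an implication -/
def impc (a b : ℕ) : ℕ := Nat.pair 2 (Nat.pair 3 (Nat.pair a (Nat.pair 2 b)))

theorem imp_code {k : ℕ} (φ ψ : Fm k) : (imp φ ψ).code = impc φ.code ψ.code := rfl

theorem imp_sat {k : ℕ} {R : Type*} [CommRing R] (O : Set R) (c : Fin k → R) (φ ψ : Fm k)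
    (e : ℕ → R) : (imp φ ψ).Sat O c e ↔ (φ.Sat O c e → ψ.Sat O c e) := by
  simp only [imp, Fm.Sat]
  tauto

theorem imp_fv {k : ℕ} (φ ψ : Fm k) : (imp φ ψ).fv = φ.fv ∪ ψ.fv := rfl

/-- numerals -/
def num (k : ℕ) : ℕ → Tm k
  | 0 => Tm.zero
  | n + 1 => Tm.add (num k n) Tm.one

theorem num_val {k : ℕ} {R : Type*} [CommRing R] (c : Fin k → R) (e : ℕ → R) (n : ℕ) :
    (num k n).val c e = (n : R) := by
  induction n with
  | zero => simp [num, Tm.val]
  | succ n ih => simp [num, Tm.val, ih]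

theorem num_fv {k : ℕ} (n : ℕ) : (num k n).fv = ∅ := by
  induction n with
  | zero => rfl
  | succ n ih => simp [num, Tm.fv, ih]

theorem pair_comp {f g : ℕ → ℕ → ℕ} (hf : Computable₂ f) (hg : Computable₂ g) :
    Computable₂ (fun a b => Nat.pair (f a b) (g a b)) :=
  (Primrec₂.natPair.to_comp).comp hf hg

theorem impc_comp {f g : ℕ → ℕ → ℕ} (hf : Computable₂ f) (hg : Computable₂ g) :
    Computable₂ (fun a b => impc (f a b) (g a b)) := by
  unfold impc
  exact pair_comp (Computable.const 2) (pair_comp (Computable.const 3)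
    (pair_comp hf (pair_comp (Computable.const 2) hg)))

theorem const_comp (n : ℕ) : Computable₂ (fun _ _ : ℕ => n) := Computable.const n

theorem fst_comp {f : ℕ → ℕ} (hf : Computable f) : Computable₂ (fun a _ : ℕ => f a) :=
  hf.comp Computable.fst

theorem snd_comp {f : ℕ → ℕ} (hf : Computable f) : Computable₂ (fun _ b : ℕ => f b) :=
  hf.comp Computable.snd

theorem pow_computable (p : ℕ) : Computable (fun n : ℕ => p ^ n) := by
  have h : Primrec (fun n : ℕ => Nat.rec (motive := fun _ => ℕ) 1 (fun _ m => m * p) n) :=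
    Primrec.nat_rec₁ 1 (Primrec.nat_mul.comp Primrec.snd (Primrec.const p)).to₂
  refine (h.of_eq ?_).to_comp
  intro n
  induction n with
  | zero => simp
  | succ n ih => rw [pow_succ, ← ih]

end Pool.Agent.H55.Tilt
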