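import Pool.Agent.H55.Tilt.Root

/-! The field `ℚ_p(p^(1/p^∞))`. -/

set_option autoImplicit false

namespace Pool.Agent.H55.Tilt

open Polynomial Pool.Agent.H92.Tilt

open scoped IntermediateField

variable {p : ℕ} [hp : Fact p.Prime]

theorem norm_p_alg : ‖(p : PadicAlgCl p)‖ = (p : ℝ)⁻¹ := by
  have := norm_algebraMap (p := p) (p : ℚ_[p])
  rw [map_natCast] at this
  rw [this, Padic.norm_p]

section

variable {r : ℕ → PadicAlgCl p} (h0 : r 0 = (p : PadicAlgCl p)) (h1 : ∀ n, r (n + 1) ^ p = r n)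

include h0 h1

theorem r_pow (n : ℕ) : r n ^ p ^ n = p := by
  induction n with
  | zero => simpa using h0
  | succ n ih => rw [pow_succ', pow_mul, h1, ih]

theorem r_norm (n : ℕ) : ‖r n‖ ^ p ^ n = (p : ℝ)⁻¹ := by
  rw [← norm_pow, r_pow h0 h1, norm_p_alg]

theorem r_poly (n : ℕ) (x : PadicAlgCl p) (hx : x ∈ ℚ_[p]⟮r n⟯) :
    ∃ P : Polynomial ℚ_[p], P.natDegree < p ^ n ∧ aeval (r n) P = x := by
  have hpn : 0 < p ^ n := pow_pos hp.out.pos n
  have hdeg : (X ^ p ^ n - C (p : ℚ_[p]) : Polynomial ℚ_[p]).natDegree = p ^ n :=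
    natDegree_X_pow_sub_C
  have h := exists_poly_lt (r n) x hx (X ^ p ^ n - C (p : ℚ_[p]))
    (monic_X_pow_sub_C _ hpn.ne') (by simp [r_pow h0 h1]) (by rw [hdeg]; exact hpn)
  rwa [hdeg] at h

/-- value group of `ℚ_p(r n)` -/
theorem r_value (n : ℕ) (x : PadicAlgCl p) (hx : x ∈ ℚ_[p]⟮r n⟯) (hx0 : x ≠ 0) :
    ∃ k : ℤ, ‖x‖ ^ p ^ n = (p : ℝ) ^ k := by
  obtain ⟨P, hP, rfl⟩ := r_poly h0 h1 n x hx
  have hpn : 0 < p ^ n := pow_pos hp.out.pos n
  obtain ⟨k, hk, hnorm⟩ := norm_eq_term (r n) (p ^ n) hpn (r_norm h0 h1 n) P.coeff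
  rw [← aeval_eq_sum _ P hP] at hnorm
  have hck : P.coeff k ≠ 0 := by
    intro hc
    rw [hc, norm_zero, zero_mul] at hnorm
    exact hx0 (norm_eq_zero.1 hnorm)
  exact ⟨_, by rw [hnorm, norm_pow_zpow _ _ (r_norm h0 h1 n) _ hck]⟩

theorem r_mono (n : ℕ) : r n ∈ ℚ_[p]⟮r (n + 1)⟯ := by
  rw [← h1 n]
  exact pow_mem (IntermediateField.mem_adjoin_simple_self _ _) p

theorem r_union (x : PadicAlgCl p) (hx : x ∈ KRoot p r) : ∃ n, x ∈ ℚ_[p]⟮r n⟯ := by
  apply gen_union (Set.range r) r (r_mono h0 h1) _ x hx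
  rintro z ⟨n, rfl⟩
  exact ⟨n, IntermediateField.mem_adjoin_simple_self _ _⟩

omit h0 h1 in
theorem r_mem (n : ℕ) : r n ∈ KRoot p r := IntermediateField.subset_adjoin _ _ ⟨n, rfl⟩

/-- `ℚ_p(p^(1/p^∞))` is a totally ramified tower -/
theorem sysK : Sys (KRoot p r) 1 (fun n => ⟨r n, r_mem n⟩) where
  dpos := one_pos
  nrm := fun n => by
    rw [one_mul]
    exact r_norm h0 h1 n
  pow := fun n => by
    change ‖r (n + 1) ^ p - r n‖ ≤ _
    rw [h1, sub_self, norm_zero]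
    exact norm_nonneg _
  gen := fun x => by
    obtain ⟨n, hn⟩ := r_union h0 h1 x x.2
    obtain ⟨P, hP, hx⟩ := r_poly h0 h1 n x hn
    exact ⟨n, P, by rwa [one_mul], hx⟩

/-- for `p` odd there is no primitive `p`-th root of unity -/
theorem no_root (hp2 : p ≠ 2) (ζ : PadicAlgCl p) (hζ : IsPrimitiveRoot ζ p) (hK : ζ ∈ KRoot p r) :
    False := by
  obtain ⟨n, hn⟩ := r_union h0 h1 ζ hK
  have hne : ζ - 1 ≠ 0 := by
    intro h
    exact hζ.ne_one hp.out.one_lt (sub_eq_zero.1 h)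
  obtain ⟨k, hk⟩ := r_value h0 h1 n (ζ - 1) (sub_mem hn (one_mem _)) hne
  have h2 := norm_sub_one 0 ζ (by simpa using hζ)
  rw [pow_zero, mul_one] at h2
  have h3 : ((p : ℝ) ^ k) ^ (p - 1) = ((p : ℝ)⁻¹) ^ p ^ n := by
    rw [← hk, ← h2, ← pow_mul, ← pow_mul, mul_comm]
  rw [inv_pow, ← zpow_natCast, ← zpow_mul, ← zpow_natCast, ← zpow_neg] at h3
  have h4 := zpow_right_injective₀ p_pos (one_lt_p (p := p)).ne' h3
  have h5 : ((p - 1 : ℕ) : ℤ) ∣ ((p ^ n : ℕ) : ℤ) := by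
    refine ⟨-k, ?_⟩
    linarith
  have h6 : p - 1 ∣ p ^ n := by exact_mod_cast h5
  have h7 : Nat.Coprime (p - 1) (p ^ n) := by
    apply Nat.Coprime.pow_right
    have := Nat.coprime_self_sub_left (m := 1) (n := p) hp.out.one_le
    rw [this]
    exact Nat.coprime_one_left p
  have h8 := Nat.Coprime.eq_one_of_dvd h7 h6
  have := hp.out.two_le
  omega

end

/-- `-1` is not a square in `ℚ_2` -/
theorem no_sqrt_Q2 (q : ℚ_[2]) (hq : q ^ 2 = -1) : False := by
  have h1 : ‖q‖ = 1 := by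
    have h2 : ‖q‖ ^ 2 = 1 := by rw [← norm_pow, hq, norm_neg, norm_one]
    exact (pow_eq_one_iff_of_nonneg (norm_nonneg _) two_ne_zero).1 h2
  let x : ℤ_[2] := ⟨q, h1.le⟩
  have hx : x ^ 2 = -1 := by
    apply Subtype.ext
    push_cast
    exact hq
  have h3 := congrArg (PadicInt.toZModPow (p := 2) 2) hx
  rw [map_pow, map_neg, map_one] at h3
  have h4 : ∀ y : ZMod (2 ^ 2), y ^ 2 ≠ -1 := by decide
  exact h4 _ h3

section two

variable {r : ℕ → PadicAlgCl 2} (h0 : r 0 = ((2 : ℕ) : PadicAlgCl 2)) (h1 : ∀ n, r (n + 1) ^ 2 = r n)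

include h0 h1

theorem two_decomp (n : ℕ) (x : PadicAlgCl 2) (hx : x ∈ ℚ_[2]⟮r (n + 1)⟯) :
    ∃ a ∈ ℚ_[2]⟮r n⟯, ∃ b ∈ ℚ_[2]⟮r n⟯, x = a + b * r (n + 1) := by
  obtain ⟨P, rfl⟩ := exists_poly _ x hx
  clear hx
  induction P using Polynomial.induction_on' with
  | add P Q hP hQ =>
    obtain ⟨a, ha, b, hb, e1⟩ := hP
    obtain ⟨a', ha', b', hb', e2⟩ := hQ
    exact ⟨a + a', add_mem ha ha', b + b', add_mem hb hb', by rw [map_add, e1, e2]; ring⟩
  | monomial k c =>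
    induction k with
    | zero =>
      refine ⟨algebraMap _ _ c, IntermediateField.algebraMap_mem _ c, 0, zero_mem _, ?_⟩
      simp
    | succ k ih =>
      obtain ⟨a, ha, b, hb, e1⟩ := ih
      refine ⟨b * r n, mul_mem hb (IntermediateField.mem_adjoin_simple_self _ _), a, ha, ?_⟩
      rw [aeval_monomial] at e1 ⊢
      rw [pow_succ, ← mul_assoc, e1, ← h1 n]
      ring

theorem no_i_aux (n : ℕ) : ∀ i ∈ ℚ_[2]⟮r n⟯, i ^ 2 ≠ -1 := by
  induction n with
  | zero =>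
    intro i hi hi2
    obtain ⟨P, hP, rfl⟩ := r_poly (p := 2) h0 h1 0 i hi
    rw [pow_zero, Nat.lt_one_iff, natDegree_eq_zero] at hP
    obtain ⟨c, rfl⟩ := hP
    rw [aeval_C, ← map_pow] at hi2
    have h2 : algebraMap ℚ_[2] (PadicAlgCl 2) (c ^ 2) = algebraMap ℚ_[2] (PadicAlgCl 2) (-1) := by
      rw [hi2]; simp
    exact no_sqrt_Q2 c ((algebraMap ℚ_[2] (PadicAlgCl 2)).injective h2)
  | succ n ih =>
    intro i hi hi2
    obtain ⟨a, ha, b, hb, e⟩ := two_decomp h0 h1 n i hi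
    have hrn : r n ∈ ℚ_[2]⟮r n⟯ := IntermediateField.mem_adjoin_simple_self _ _
    have hrs : ‖r (n + 1)‖ ^ 2 ^ (n + 1) = ((2 : ℕ) : ℝ)⁻¹ := r_norm (p := 2) h0 h1 (n + 1)
    have key : a ^ 2 + b ^ 2 * r n + 2 * a * b * r (n + 1) = -1 := by
      rw [← hi2, e, ← h1 n]; ring
    by_cases hab : a * b = 0
    · rcases mul_eq_zero.1 hab with ha0 | hb0
      · subst ha0
        have h2 : b ^ 2 * r n = -1 := by rw [← key]; ring
        have hb0 : b ≠ 0 := by
          rintro rfl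
          norm_num at h2
        obtain ⟨k, hk⟩ := r_value (p := 2) h0 h1 n b hb hb0
        have h3 := congrArg (fun x => ‖x‖ ^ 2 ^ n) h2
        simp only [norm_mul, norm_pow, norm_neg, norm_one, one_pow, mul_pow] at h3
        rw [← pow_mul, mul_comm 2, pow_mul, hk, r_norm (p := 2) h0 h1 n] at h3
        have h4 : ((2 : ℕ) : ℝ) ^ (2 * k - 1) = ((2 : ℕ) : ℝ) ^ (0 : ℤ) := by
          rw [zpow_zero, ← h3, zpow_sub₀ (by norm_num), zpow_one, mul_comm 2 k, zpow_mul]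
          norm_cast
        have h5 := zpow_right_injective₀ (by norm_num) (by norm_num) h4
        omega
      · subst hb0
        have : i = a := by rw [e]; ring
        exact ih a ha (by rw [← this]; exact hi2)
    · have hr : r (n + 1) = (-1 - a ^ 2 - b ^ 2 * r n) / (2 * (a * b)) := by
        rw [eq_div_iff (mul_ne_zero two_ne_zero hab), ← key]
        ring
      have hmem : r (n + 1) ∈ ℚ_[2]⟮r n⟯ := by
        rw [hr]
        have h2 : (2 : PadicAlgCl 2) ∈ ℚ_[2]⟮r n⟯ := by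
          have := natCast_mem ℚ_[2]⟮r n⟯ 2
          exact_mod_cast this
        exact div_mem (sub_mem (sub_mem (neg_mem (one_mem _)) (pow_mem ha 2))
          (mul_mem (pow_mem hb 2) hrn)) (mul_mem h2 (mul_mem ha hb))
      have hr0 : r (n + 1) ≠ 0 := by
        intro h
        rw [h, norm_zero, zero_pow (by positivity)] at hrs
        norm_num at hrs
      obtain ⟨k, hk⟩ := r_value (p := 2) h0 h1 n _ hmem hr0
      rw [pow_succ, pow_mul, hk] at hrs
      have h4 : ((2 : ℕ) : ℝ) ^ (k * 2) = ((2 : ℕ) : ℝ) ^ (-1 : ℤ) := by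
        rw [zpow_mul, zpow_neg_one, ← hrs]
        norm_cast
      have h5 := zpow_right_injective₀ (by norm_num) (by norm_num) h4
      omega

theorem no_i (i : PadicAlgCl 2) (hi : i ∈ KRoot 2 r) : i ^ 2 ≠ -1 := by
  obtain ⟨n, hn⟩ := r_union (p := 2) h0 h1 i hi
  exact no_i_aux h0 h1 n i hn

end two

/-- uniqueness of the `p ^ N`-th root of `p` modulo `p` -/
theorem root_unique {r : ℕ → PadicAlgCl p} (h0 : r 0 = (p : PadicAlgCl p))
    (h1 : ∀ n, r (n + 1) ^ p = r n) (N : ℕ) (x : PadicAlgCl p) (hx : x ∈ KRoot p r)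
    (hxN : x ^ p ^ N = p) : ‖x - r N‖ ≤ (p : ℝ)⁻¹ := by
  have hp0 : (p : PadicAlgCl p) ≠ 0 := Nat.cast_ne_zero.2 hp.out.ne_zero
  have hr0 : r N ≠ 0 := by
    intro h
    have := r_pow h0 h1 N
    rw [h, zero_pow (pow_pos hp.out.pos N).ne'] at this
    exact hp0 this.symm
  set u := x / r N with hu
  have huK : u ∈ KRoot p r := div_mem hx (r_mem N)
  have huN : u ^ p ^ N = 1 := by
    rw [hu, div_pow, hxN, r_pow h0 h1 N, div_self hp0]
  obtain ⟨j, hj, hord⟩ := (Nat.dvd_prime_pow hp.out).1 (orderOf_dvd_of_pow_eq_one huN)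
  have hprim : IsPrimitiveRoot u (p ^ j) := hord ▸ IsPrimitiveRoot.orderOf u
  have hxu : x = u * r N := by rw [hu, div_mul_cancel₀ x hr0]
  rcases Nat.eq_zero_or_pos j with hj0 | hjpos
  · subst hj0
    rw [pow_zero, orderOf_eq_one_iff] at hord
    rw [hxu, hord, one_mul, sub_self, norm_zero]
    positivity
  · by_cases hp2 : p = 2
    · subst hp2
      rcases Nat.lt_or_ge j 2 with hj2 | hj2
      · have hj1 : j = 1 := by omega
        subst hj1
        have h2 : u = -1 := by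
          have h3 := hprim.pow_eq_one
          rw [pow_one] at h3
          have h4 : (u - 1) * (u + 1) = 0 := by ring_nf; rw [h3]; ring
          rcases mul_eq_zero.1 h4 with h5 | h5
          · exfalso
            rw [sub_eq_zero.1 h5, orderOf_one] at hord
            norm_num at hord
          · exact eq_neg_of_add_eq_zero_left h5
        rw [hxu, h2]
        have h3 : -1 * r N - r N = -(((2 : ℕ) : PadicAlgCl 2) * r N) := by push_cast; ring
        rw [h3, norm_neg, norm_mul, norm_p_alg]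
        apply mul_le_of_le_one_right (by positivity)
        exact ((sysK h0 h1).nrm_lt N).le
      · exfalso
        have h2 : IsPrimitiveRoot (u ^ 2 ^ (j - 2)) 4 := by
          apply hprim.pow (by positivity)
          rw [show (4 : ℕ) = 2 ^ 2 by norm_num, ← pow_add]
          congr 1
          omega
        apply no_i h0 h1 (u ^ 2 ^ (j - 2)) (pow_mem huK _)
        have h3 : IsPrimitiveRoot ((u ^ 2 ^ (j - 2)) ^ 2) 2 := h2.pow (by norm_num) (by norm_num)
        exact h3.eq_neg_one_of_two_right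
    · exfalso
      apply no_root h0 h1 hp2 (u ^ p ^ (j - 1)) _ (pow_mem huK _)
      apply hprim.pow (pow_pos hp.out.pos _)
      rw [← pow_succ]
      congr 1
      omega

end Pool.Agent.H55.Tilt
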