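import Pool.Agent.H55.Tilt.Sys
import Pool.Agent.H92.Tilt.Tower

/-! The truncated ring of a totally ramified tower is a `Tower`. -/

set_option autoImplicit false

namespace Pool.Agent.H55.Tilt

open Polynomial Pool.Agent.H92.Tilt

variable {p : ℕ} [hp : Fact p.Prime]

/-- A presentation of `K` as the union of the fields `ℚ_p(π n)`. -/
structure Sys (K : IntermediateField ℚ_[p] (PadicAlgCl p)) (d : ℕ) (π : ℕ → K) : Prop where
  dpos : 0 < d
  nrm : ∀ n, ‖(π n : PadicAlgCl p)‖ ^ (d * p ^ n) = (p : ℝ)⁻¹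
  pow : ∀ n, ‖(π (n + 1) : PadicAlgCl p) ^ p - π n‖ ≤ ‖(π 0 : PadicAlgCl p)‖
  gen : ∀ x : K, ∃ n, ∃ P : Polynomial ℚ_[p], P.natDegree < d * p ^ n ∧
    aeval (π n : PadicAlgCl p) P = x

/-- The valuation ring as a subring. -/
def OK (K : IntermediateField ℚ_[p] (PadicAlgCl p)) : Subring K where
  carrier := OPadic p K
  mul_mem' := by
    intro a b ha hb
    change ‖((a * b : K) : PadicAlgCl p)‖ ≤ 1
    rw [IntermediateField.coe_mul, norm_mul]
    exact mul_le_one₀ ha (norm_nonneg _) hb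
  one_mem' := by
    change ‖((1 : K) : PadicAlgCl p)‖ ≤ 1
    rw [IntermediateField.coe_one, norm_one]
  add_mem' := by
    intro a b ha hb
    change ‖((a + b : K) : PadicAlgCl p)‖ ≤ 1
    rw [IntermediateField.coe_add]
    exact (PadicAlgCl.isNonarchimedean p _ _).trans (max_le ha hb)
  zero_mem' := by
    change ‖((0 : K) : PadicAlgCl p)‖ ≤ 1
    rw [IntermediateField.coe_zero, norm_zero]
    exact zero_le_one
  neg_mem' := by
    intro a ha
    change ‖((-a : K) : PadicAlgCl p)‖ ≤ 1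
    rw [IntermediateField.coe_neg, norm_neg]
    exact ha

theorem mem_OK {K : IntermediateField ℚ_[p] (PadicAlgCl p)} {x : K} :
    x ∈ OK K ↔ ‖(x : PadicAlgCl p)‖ ≤ 1 := Iff.rfl

section

variable {K : IntermediateField ℚ_[p] (PadicAlgCl p)} {d : ℕ} {π : ℕ → K}

theorem Sys.nrm_pos (h : Sys K d π) (n : ℕ) : 0 < ‖(π n : PadicAlgCl p)‖ := by
  rcases (norm_nonneg (π n : PadicAlgCl p)).eq_or_lt with h1 | h1
  · have h2 := h.nrm n
    have h3 : 0 < p ^ n := pow_pos hp.out.pos n
    have h4 : d * p ^ n ≠ 0 := (Nat.mul_pos h.dpos h3).ne'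
    rw [← h1, zero_pow h4] at h2
    exact absurd h2 (inv_ne_zero p_pos.ne').symm
  · exact h1

theorem Sys.nrm_lt (h : Sys K d π) (n : ℕ) : ‖(π n : PadicAlgCl p)‖ < 1 := by
  by_contra hc
  rw [not_lt] at hc
  have h2 := one_le_pow₀ hc (n := d * p ^ n)
  rw [h.nrm n] at h2
  exact absurd h2 (not_le.2 (inv_lt_one_of_one_lt₀ one_lt_p))

theorem Sys.nrm_pow (h : Sys K d π) (n : ℕ) :
    ‖(π n : PadicAlgCl p)‖ ^ p ^ n = ‖(π 0 : PadicAlgCl p)‖ := by
  have h0 := h.nrm 0
  have h1 := h.nrm n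
  rw [mul_comm, pow_mul] at h1
  rw [pow_zero, mul_one, ← h1] at h0
  exact ((pow_left_inj₀ (norm_nonneg _) (by positivity) h.dpos.ne').1 h0).symm

theorem Sys.p_le (h : Sys K d π) : (p : ℝ)⁻¹ ≤ ‖(π 0 : PadicAlgCl p)‖ := by
  have h0 := h.nrm 0
  rw [pow_zero, mul_one] at h0
  rw [← h0]
  exact pow_le_of_le_one (norm_nonneg _) (h.nrm_lt 0).le h.dpos.ne'

theorem Sys.mem (h : Sys K d π) (n : ℕ) : π n ∈ OK K := mem_OK.2 (h.nrm_lt n).le

/-- uniformizers as integers -/
def Sys.u (h : Sys K d π) (n : ℕ) : OK K := ⟨π n, h.mem n⟩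

/-- the truncated ring -/
abbrev Sys.R (h : Sys K d π) : Type := OK K ⧸ Ideal.span {h.u 0}

/-- the reduction -/
noncomputable def Sys.red (h : Sys K d π) : OK K →+* h.R := Ideal.Quotient.mk _

theorem Sys.red_surj (h : Sys K d π) : Function.Surjective h.red := Ideal.Quotient.mk_surjective

theorem Sys.red_eq_zero (h : Sys K d π) (x : OK K) :
    h.red x = 0 ↔ ‖((x : K) : PadicAlgCl p)‖ ≤ ‖(π 0 : PadicAlgCl p)‖ := by
  have hne : (π 0 : PadicAlgCl p) ≠ 0 := norm_pos_iff.1 (h.nrm_pos 0)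
  have hne' : π 0 ≠ 0 := fun h0 => hne (by rw [h0]; rfl)
  rw [Sys.red, Ideal.Quotient.eq_zero_iff_mem, Ideal.mem_span_singleton]
  constructor
  · rintro ⟨y, rfl⟩
    change ‖((π 0 * (y : K) : K) : PadicAlgCl p)‖ ≤ _
    rw [IntermediateField.coe_mul, norm_mul]
    exact mul_le_of_le_one_right (norm_nonneg _) y.2
  · intro hx
    refine ⟨⟨(π 0)⁻¹ * (x : K), ?_⟩, ?_⟩
    · rw [mem_OK, IntermediateField.coe_mul, IntermediateField.coe_inv, norm_mul, norm_inv,
        ← div_eq_inv_mul]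
      exact (div_le_one (h.nrm_pos 0)).2 hx
    · apply Subtype.ext
      change (x : K) = π 0 * ((π 0)⁻¹ * (x : K))
      rw [mul_inv_cancel_left₀ hne']

theorem Sys.red_eq (h : Sys K d π) (x y : OK K) :
    h.red x = h.red y ↔ ‖((x : K) : PadicAlgCl p) - ((y : K) : PadicAlgCl p)‖ ≤
      ‖(π 0 : PadicAlgCl p)‖ := by
  rw [← sub_eq_zero, ← map_sub, h.red_eq_zero]
  rfl

theorem coe_aeval (x : OK K) (Q : Polynomial ℤ) :
    (((aeval x Q : OK K) : K) : PadicAlgCl p) = aeval ((x : K) : PadicAlgCl p) Q := by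
  have h1 : (aeval x Q : OK K).1 = aeval (x : K) Q := by
    have := Polynomial.hom_eval₂ Q (algebraMap ℤ (OK K)) (OK K).subtype x
    rw [aeval_def, aeval_def]
    change (OK K).subtype (eval₂ _ _ _) = _
    rw [this]
    congr 1
  have h2 : ((aeval (x : K) Q : K) : PadicAlgCl p) = aeval ((x : K) : PadicAlgCl p) Q := by
    have := Polynomial.hom_eval₂ Q (algebraMap ℤ K) (algebraMap K (PadicAlgCl p)) (x : K)
    rw [aeval_def, aeval_def]
    change algebraMap K (PadicAlgCl p) (eval₂ _ _ _) = _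
    rw [this]
    congr 1
  change ((((aeval x Q : OK K).1) : K) : PadicAlgCl p) = _
  rw [h1, h2]

theorem map_aeval_int {A B : Type} [CommRing A] [CommRing B] (f : A →+* B) (x : A)
    (Q : Polynomial ℤ) : aeval (f x) Q = f (aeval x Q) := by
  rw [aeval_def, aeval_def, Polynomial.hom_eval₂]
  congr 1
  exact Subsingleton.elim _ _

theorem Sys.tower (h : Sys K d π) : Tower p h.R (fun n => h.red (h.u n)) := by
  refine ⟨?_, ?_, ?_⟩
  · intro n
    change h.red (h.u (n + 1)) ^ p = h.red (h.u n)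
    rw [← map_pow, h.red_eq]
    exact h.pow n
  · intro x
    obtain ⟨x, rfl⟩ := h.red_surj x
    obtain ⟨n, P, hP, hx⟩ := h.gen (x : K)
    have hm := h.nrm n
    have hx1 : ‖aeval (π n : PadicAlgCl p) P‖ ≤ 1 := by rw [hx]; exact x.2
    rw [aeval_eq_sum _ P hP] at hx1
    have hc : ∀ i < d * p ^ n, ‖P.coeff i‖ ≤ 1 := by
      intro i hi
      apply norm_le_one_of_lt
      have h1 := (term_le (π n : PadicAlgCl p) _ hm P.coeff hi).trans hx1
      have h2 : (p : ℝ)⁻¹ < ‖(π n : PadicAlgCl p)‖ ^ i := by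
        rw [← hm]
        exact pow_lt_pow_right_of_lt_one₀ (h.nrm_pos n) (h.nrm_lt n) hi
      by_contra hcon
      rw [not_lt] at hcon
      have h3 : 1 < ‖P.coeff i‖ * ‖(π n : PadicAlgCl p)‖ ^ i := by
        calc (1 : ℝ) = p * (p : ℝ)⁻¹ := (mul_inv_cancel₀ p_pos.ne').symm
          _ < p * ‖(π n : PadicAlgCl p)‖ ^ i := mul_lt_mul_of_pos_left h2 p_pos
          _ ≤ _ := mul_le_mul_of_nonneg_right hcon (by positivity)
      exact absurd h1 (not_le.2 h3)
    have hk : ∀ i, ∃ k : ℤ, i < d * p ^ n → ‖P.coeff i - k‖ ≤ (p : ℝ)⁻¹ := by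
      intro i
      by_cases hi : i < d * p ^ n
      · obtain ⟨k, hk⟩ := exists_int_sub (hc i hi)
        exact ⟨k, fun _ => hk⟩
      · exact ⟨0, fun h => absurd h hi⟩
    choose k hk using hk
    refine ⟨n, ∑ i ∈ Finset.range (d * p ^ n), C (k i) * X ^ i, ?_⟩
    rw [map_aeval_int, h.red_eq, coe_aeval]
    have h2 : ((h.u n : K) : PadicAlgCl p) = (π n : PadicAlgCl p) := rfl
    rw [h2, ← hx, aeval_eq_sum _ P hP]
    have h3 : aeval (π n : PadicAlgCl p) (∑ i ∈ Finset.range (d * p ^ n), C (k i) * X ^ i) =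
        ∑ i ∈ Finset.range (d * p ^ n), algebraMap ℚ_[p] (PadicAlgCl p) (k i : ℚ_[p]) *
          (π n : PadicAlgCl p) ^ i := by
      rw [map_sum]
      apply Finset.sum_congr rfl
      intro i _
      simp
    rw [h3, ← Finset.sum_sub_distrib]
    apply IsUltrametricDist.norm_sum_le_of_forall_le_of_nonneg (norm_nonneg _)
    intro i hi
    rw [← sub_mul, ← map_sub, norm_mul, norm_algebraMap, norm_pow]
    calc _ ≤ (p : ℝ)⁻¹ * 1 := by
          apply mul_le_mul (hk i (Finset.mem_range.1 hi)) (pow_le_one₀ (norm_nonneg _) (h.nrm_lt n).le)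
            (by positivity) (by positivity)
      _ ≤ _ := by rw [mul_one]; exact h.p_le
  · intro n Q
    rw [map_aeval_int, h.red_eq_zero, coe_aeval]
    have h2 : ((h.u n : K) : PadicAlgCl p) = (π n : PadicAlgCl p) := rfl
    rw [h2]
    set m := d * p ^ n with hmdef
    have hm := h.nrm n
    rw [← hmdef] at hm
    have hpn : 0 < p ^ n := pow_pos hp.out.pos n
    have hle : p ^ n ≤ m := Nat.le_mul_of_pos_left _ h.dpos
    -- split the sum
    let c : ℕ → ℚ_[p] := fun i => if i < p ^ n then ((Q.coeff i : ℤ) : ℚ_[p]) else 0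
    have hsum : aeval (π n : PadicAlgCl p) Q =
        ∑ i ∈ Finset.range (Q.natDegree + 1), algebraMap ℚ_[p] (PadicAlgCl p) ((Q.coeff i : ℤ) : ℚ_[p]) *
          (π n : PadicAlgCl p) ^ i := by
      rw [aeval_eq_sum_range]
      apply Finset.sum_congr rfl
      intro i _
      simp
    have hdiff : ‖aeval (π n : PadicAlgCl p) Q - ∑ i ∈ Finset.range m,
        algebraMap ℚ_[p] (PadicAlgCl p) (c i) * (π n : PadicAlgCl p) ^ i‖ ≤ ‖(π 0 : PadicAlgCl p)‖ := by
      have hA : aeval (π n : PadicAlgCl p) Q = ∑ i ∈ Finset.range (Q.natDegree + 1 + m),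
          algebraMap ℚ_[p] (PadicAlgCl p) ((Q.coeff i : ℤ) : ℚ_[p]) * (π n : PadicAlgCl p) ^ i := by
        rw [hsum]
        apply Finset.sum_subset (Finset.range_mono (by omega))
        intro i _ hi
        rw [Finset.mem_range, not_lt] at hi
        rw [Polynomial.coeff_eq_zero_of_natDegree_lt (by omega)]
        simp
      have hB : ∑ i ∈ Finset.range m, algebraMap ℚ_[p] (PadicAlgCl p) (c i) * (π n : PadicAlgCl p) ^ i =
          ∑ i ∈ Finset.range (Q.natDegree + 1 + m),
            algebraMap ℚ_[p] (PadicAlgCl p) (c i) * (π n : PadicAlgCl p) ^ i := by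
        apply Finset.sum_subset (Finset.range_mono (by omega))
        intro i _ hi
        rw [Finset.mem_range, not_lt] at hi
        have : ¬ i < p ^ n := by omega
        simp [c, this]
      rw [hA, hB, ← Finset.sum_sub_distrib]
      apply IsUltrametricDist.norm_sum_le_of_forall_le_of_nonneg (norm_nonneg _)
      intro i _
      by_cases hi : i < p ^ n
      · simp [c, hi]
      · simp only [c, hi, if_false, map_zero, zero_mul, sub_zero]
        rw [norm_mul, norm_algebraMap, norm_pow]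
        calc _ ≤ 1 * ‖(π n : PadicAlgCl p)‖ ^ p ^ n := by
              apply mul_le_mul (Padic.norm_int_le_one _) ?_ (by positivity) zero_le_one
              exact pow_le_pow_of_le_one (norm_nonneg _) (h.nrm_lt n).le (by omega)
          _ = _ := by rw [one_mul, h.nrm_pow]
    have hiff : ‖aeval (π n : PadicAlgCl p) Q‖ ≤ ‖(π 0 : PadicAlgCl p)‖ ↔
        ‖∑ i ∈ Finset.range m, algebraMap ℚ_[p] (PadicAlgCl p) (c i) * (π n : PadicAlgCl p) ^ i‖ ≤
          ‖(π 0 : PadicAlgCl p)‖ := by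
      constructor
      · intro h3
        have := IsUltrametricDist.norm_add_le_max (aeval (π n : PadicAlgCl p) Q)
          (-(aeval (π n : PadicAlgCl p) Q - ∑ i ∈ Finset.range m,
            algebraMap ℚ_[p] (PadicAlgCl p) (c i) * (π n : PadicAlgCl p) ^ i))
        rw [← sub_eq_add_neg, sub_sub_cancel, norm_neg] at this
        exact this.trans (max_le h3 hdiff)
      · intro h3
        have := IsUltrametricDist.norm_add_le_max (aeval (π n : PadicAlgCl p) Q - ∑ i ∈ Finset.range m,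
            algebraMap ℚ_[p] (PadicAlgCl p) (c i) * (π n : PadicAlgCl p) ^ i)
          (∑ i ∈ Finset.range m,
            algebraMap ℚ_[p] (PadicAlgCl p) (c i) * (π n : PadicAlgCl p) ^ i)
        rw [sub_add_cancel] at this
        exact this.trans (max_le hdiff h3)
    rw [hiff]
    constructor
    · intro h3 i hi
      have h4 := (term_le (π n : PadicAlgCl p) m hm c (i := i) (by omega)).trans h3
      rw [← h.nrm_pow n] at h4
      simp only [c, hi, if_true] at h4
      rw [← norm_int_lt_one_iff]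
      by_contra hcon
      rw [not_lt] at hcon
      have h5 : ‖(π n : PadicAlgCl p)‖ ^ p ^ n < ‖(π n : PadicAlgCl p)‖ ^ i :=
        pow_lt_pow_right_of_lt_one₀ (h.nrm_pos n) (h.nrm_lt n) hi
      have h6 : ‖(π n : PadicAlgCl p)‖ ^ i ≤ ‖((Q.coeff i : ℤ) : ℚ_[p])‖ * ‖(π n : PadicAlgCl p)‖ ^ i :=
        le_mul_of_one_le_left (by positivity) hcon
      linarith
    · intro h3
      apply IsUltrametricDist.norm_sum_le_of_forall_le_of_nonneg (norm_nonneg _)
      intro i _
      rw [norm_mul, norm_algebraMap, norm_pow]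
      by_cases hi : i < p ^ n
      · simp only [c, hi, if_true]
        calc _ ≤ (p : ℝ)⁻¹ * 1 := by
              apply mul_le_mul (norm_int_le_of_dvd (h3 i hi))
                (pow_le_one₀ (norm_nonneg _) (h.nrm_lt n).le) (by positivity) (by positivity)
          _ ≤ _ := by rw [mul_one]; exact h.p_le
      · simp [c, hi]

end

end Pool.Agent.H55.Tilt
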