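import Pool.Agent.H55.Tilt.Ring

/-! Facts about roots of unity and the tower `ℚ_p(p^(1/p^n))`. -/

set_option autoImplicit false

namespace Pool.Agent.H55.Tilt

open Polynomial Pool.Agent.H92.Tilt

open scoped IntermediateField

variable {p : ℕ} [hp : Fact p.Prime]

/-- generation by an increasing union -/
theorem gen_union (S : Set (PadicAlgCl p)) (π : ℕ → PadicAlgCl p)
    (hmono : ∀ n, π n ∈ ℚ_[p]⟮π (n + 1)⟯) (hS : ∀ z ∈ S, ∃ n, z ∈ ℚ_[p]⟮π n⟯)
    (x : PadicAlgCl p) (hx : x ∈ IntermediateField.adjoin ℚ_[p] S) : ∃ n, x ∈ ℚ_[p]⟮π n⟯ := by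
  have hle : Monotone (fun n => ℚ_[p]⟮π n⟯) := by
    apply monotone_nat_of_le_succ
    intro n
    rw [IntermediateField.adjoin_simple_le_iff]
    exact hmono n
  induction hx using IntermediateField.adjoin_induction with
  | mem x hx => exact hS x hx
  | algebraMap x => exact ⟨0, IntermediateField.algebraMap_mem _ x⟩
  | add x y _ _ hx hy =>
    obtain ⟨n, hn⟩ := hx
    obtain ⟨m, hm⟩ := hy
    exact ⟨max n m, add_mem (hle (le_max_left n m) hn) (hle (le_max_right n m) hm)⟩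
  | inv x _ hx =>
    obtain ⟨n, hn⟩ := hx
    exact ⟨n, inv_mem hn⟩
  | mul x y _ _ hx hy =>
    obtain ⟨n, hn⟩ := hx
    obtain ⟨m, hm⟩ := hy
    exact ⟨max n m, mul_mem (hle (le_max_left n m) hn) (hle (le_max_right n m) hm)⟩

theorem exists_poly (a x : PadicAlgCl p) (hx : x ∈ ℚ_[p]⟮a⟯) :
    ∃ P : Polynomial ℚ_[p], aeval a P = x := by
  have h1 : x ∈ (ℚ_[p]⟮a⟯).toSubalgebra := hx
  rw [IntermediateField.adjoin_simple_toSubalgebra_of_isAlgebraic
    (Algebra.IsAlgebraic.isAlgebraic a), Algebra.adjoin_singleton_eq_range_aeval] at h1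
  obtain ⟨P, hP⟩ := h1
  exact ⟨P, hP⟩

theorem exists_poly_lt (a x : PadicAlgCl p) (hx : x ∈ ℚ_[p]⟮a⟯) (q : Polynomial ℚ_[p])
    (hq : q.Monic) (hqa : aeval a q = 0) (hq0 : 0 < q.natDegree) :
    ∃ P : Polynomial ℚ_[p], P.natDegree < q.natDegree ∧ aeval a P = x := by
  obtain ⟨P, hP⟩ := exists_poly a x hx
  refine ⟨P %ₘ q, natDegree_modByMonic_lt P hq ?_, ?_⟩
  · rintro rfl
    simp at hq0
  · rw [← hP]
    have := Polynomial.modByMonic_add_div P q
    conv_rhs => rw [← this]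
    rw [map_add, map_mul, hqa, zero_mul, add_zero]

/-- all primitive `p^(n+1)`-th roots of unity have the same distance to `1` -/
theorem norm_sub_one (n : ℕ) (ζ : PadicAlgCl p) (hζ : IsPrimitiveRoot ζ (p ^ (n + 1))) :
    ‖ζ - 1‖ ^ ((p - 1) * p ^ n) = (p : ℝ)⁻¹ := by
  have hpos : 0 < p ^ (n + 1) := pow_pos hp.out.pos _
  have hle : ∀ a b : PadicAlgCl p, IsPrimitiveRoot a (p ^ (n + 1)) → IsPrimitiveRoot b (p ^ (n + 1)) →
      ‖b - 1‖ ≤ ‖a - 1‖ := by
    intro a b ha hb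
    obtain ⟨i, _, rfl⟩ := ha.eq_pow_of_pow_eq_one hb.pow_eq_one
    have h1 : a ^ i - 1 = (a - 1) * ∑ j ∈ Finset.range i, a ^ j := by
      rw [mul_comm, geom_sum_mul]
    have ha1 : ‖a‖ = 1 := by
      have h2 : ‖a‖ ^ (p ^ (n + 1)) = 1 := by rw [← norm_pow, ha.pow_eq_one, norm_one]
      exact (pow_eq_one_iff_of_nonneg (norm_nonneg _) hpos.ne').1 h2
    rw [h1, norm_mul]
    apply mul_le_of_le_one_right (norm_nonneg _)
    apply IsUltrametricDist.norm_sum_le_of_forall_le_of_nonneg zero_le_one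
    intro j _
    rw [norm_pow, ha1, one_pow]
  have hprod : (p : PadicAlgCl p) = ∏ μ ∈ primitiveRoots (p ^ (n + 1)) (PadicAlgCl p), (1 - μ) := by
    have h1 := cyclotomic_eq_prod_X_sub_primitiveRoots hζ
    have h2 := congrArg (eval 1) h1
    rw [eval_one_cyclotomic_prime_pow, eval_prod] at h2
    rw [h2]
    apply Finset.prod_congr rfl
    intro μ _
    simp
  have hn := congrArg norm hprod
  rw [norm_prod] at hn
  have h3 : ∀ μ ∈ primitiveRoots (p ^ (n + 1)) (PadicAlgCl p), ‖1 - μ‖ = ‖ζ - 1‖ := by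
    intro μ hμ
    rw [mem_primitiveRoots hpos] at hμ
    rw [norm_sub_rev]
    exact le_antisymm (hle ζ μ hζ hμ) (hle μ ζ hμ hζ)
  rw [Finset.prod_congr rfl h3, Finset.prod_const, hζ.card_primitiveRoots,
    Nat.totient_prime_pow_succ hp.out] at hn
  rw [mul_comm, ← hn]
  have := norm_algebraMap (p := p) (p : ℚ_[p])
  rw [map_natCast] at this
  rw [this, Padic.norm_p]

end Pool.Agent.H55.Tilt
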