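import Mathlib

/-! Totally ramified towers in the algebraic closure of `ℚ_p`: expansions in powers of a uniformizer. -/

set_option autoImplicit false

namespace Pool.Agent.H55.Tilt

open Polynomial

variable {p : ℕ} [hp : Fact p.Prime]

theorem p_pos : (0 : ℝ) < p := by exact_mod_cast hp.out.pos

theorem one_lt_p : (1 : ℝ) < p := by exact_mod_cast hp.out.one_lt

theorem norm_pow_zpow (π : PadicAlgCl p) (m : ℕ) (hπ : ‖π‖ ^ m = (p : ℝ)⁻¹) (a : ℚ_[p]) (ha : a ≠ 0)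
    (i : ℕ) : (‖a‖ * ‖π‖ ^ i) ^ m = (p : ℝ) ^ (-(m * a.valuation + i : ℤ)) := by
  rw [mul_pow, ← pow_mul, mul_comm i m, pow_mul, hπ, Padic.norm_eq_zpow_neg_valuation ha]
  rw [← zpow_natCast, ← zpow_mul, inv_pow, ← zpow_natCast, ← zpow_neg, ← zpow_add₀ p_pos.ne']
  congr 1
  ring

/-- the terms of the expansion have distinct norms -/
theorem norm_ne (π : PadicAlgCl p) (m : ℕ) (hπ : ‖π‖ ^ m = (p : ℝ)⁻¹) (a b : ℚ_[p])
    (ha : a ≠ 0) (hb : b ≠ 0) {i j : ℕ} (hi : i < m) (hj : j < m) (hij : i ≠ j) :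
    ‖a‖ * ‖π‖ ^ i ≠ ‖b‖ * ‖π‖ ^ j := by
  intro h
  have h1 : (‖a‖ * ‖π‖ ^ i) ^ m = (‖b‖ * ‖π‖ ^ j) ^ m := by rw [h]
  rw [norm_pow_zpow π m hπ a ha i, norm_pow_zpow π m hπ b hb j] at h1
  have h2 := zpow_right_injective₀ p_pos (one_lt_p (p := p)).ne' h1
  simp only [neg_inj] at h2
  have h3 : (m : ℤ) * (a.valuation - b.valuation) = j - i := by linarith
  have h4 : (m : ℤ) ∣ (j : ℤ) - i := ⟨_, h3.symm⟩
  have h5 : |(j : ℤ) - i| < m := by
    rw [abs_lt]; omega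
  have h6 := Int.eq_zero_of_abs_lt_dvd h4 h5
  omega

theorem norm_algebraMap (a : ℚ_[p]) : ‖algebraMap ℚ_[p] (PadicAlgCl p) a‖ = ‖a‖ :=
  PadicAlgCl.norm_extends p a

/-- norms of the terms are bounded by the norm of the sum -/
theorem term_le (π : PadicAlgCl p) (m : ℕ) (hπ : ‖π‖ ^ m = (p : ℝ)⁻¹) (c : ℕ → ℚ_[p])
    {i : ℕ} (hi : i < m) :
    ‖c i‖ * ‖π‖ ^ i ≤ ‖∑ j ∈ Finset.range m, algebraMap ℚ_[p] (PadicAlgCl p) (c j) * π ^ j‖ := by
  have hterm : ∀ j, ‖algebraMap ℚ_[p] (PadicAlgCl p) (c j) * π ^ j‖ = ‖c j‖ * ‖π‖ ^ j := by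
    intro j
    rw [norm_mul, norm_algebraMap, norm_pow]
  have hπ0 : 0 < ‖π‖ := by
    rcases (norm_nonneg π).eq_or_lt with h | h
    · rw [← h, zero_pow (by omega)] at hπ
      exact absurd hπ (inv_ne_zero p_pos.ne').symm
    · exact h
  obtain ⟨k, hk, hmax⟩ := Finset.exists_max_image (Finset.range m) (fun j => ‖c j‖ * ‖π‖ ^ j)
    ⟨i, Finset.mem_range.2 hi⟩
  by_cases hck : c k = 0
  · have := hmax i (Finset.mem_range.2 hi)
    simp only [hck, norm_zero, zero_mul] at this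
    exact this.trans (norm_nonneg _)
  · have hlt : ∀ j ∈ Finset.range m, j ≠ k →
        ‖algebraMap ℚ_[p] (PadicAlgCl p) (c j) * π ^ j‖ <
          ‖algebraMap ℚ_[p] (PadicAlgCl p) (c k) * π ^ k‖ := by
      intro j hj hjk
      rw [hterm, hterm]
      refine lt_of_le_of_ne (hmax j hj) ?_
      by_cases hcj : c j = 0
      · rw [hcj, norm_zero, zero_mul]
        exact (mul_pos (norm_pos_iff.2 hck) (pow_pos hπ0 k)).ne
      · exact norm_ne π m hπ _ _ hcj hck (Finset.mem_range.1 hj) (Finset.mem_range.1 hk) hjk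
    have heq := IsNonarchimedean.apply_sum_eq_of_lt (f := (norm : PadicAlgCl p → ℝ))
      (PadicAlgCl.isNonarchimedean p) (fun a => (norm_neg a).symm) hk hlt
    rw [heq, hterm]
    exact hmax i (Finset.mem_range.2 hi)

/-- the norm of the sum is the norm of one of the terms -/
theorem norm_eq_term (π : PadicAlgCl p) (m : ℕ) (hm : 0 < m) (hπ : ‖π‖ ^ m = (p : ℝ)⁻¹)
    (c : ℕ → ℚ_[p]) :
    ∃ k < m, ‖∑ j ∈ Finset.range m, algebraMap ℚ_[p] (PadicAlgCl p) (c j) * π ^ j‖ =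
      ‖c k‖ * ‖π‖ ^ k := by
  obtain ⟨k, hk, hmax⟩ := Finset.exists_max_image (Finset.range m) (fun j => ‖c j‖ * ‖π‖ ^ j)
    ⟨0, Finset.mem_range.2 hm⟩
  refine ⟨k, Finset.mem_range.1 hk, le_antisymm ?_ (term_le π m hπ c (Finset.mem_range.1 hk))⟩
  apply IsUltrametricDist.norm_sum_le_of_forall_le_of_nonneg (by positivity)
  intro j hj
  rw [norm_mul, norm_algebraMap, norm_pow]
  exact hmax j hj

theorem aeval_eq_sum (π : PadicAlgCl p) (P : Polynomial ℚ_[p]) {m : ℕ} (hP : P.natDegree < m) :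
    aeval π P = ∑ j ∈ Finset.range m, algebraMap ℚ_[p] (PadicAlgCl p) (P.coeff j) * π ^ j := by
  rw [aeval_eq_sum_range' hP]
  apply Finset.sum_congr rfl
  intro j _
  rw [Algebra.smul_def]

/-- integers -/
theorem norm_int_lt_one_iff (k : ℤ) : ‖(k : ℚ_[p])‖ < 1 ↔ (p : ℤ) ∣ k :=
  Padic.norm_intCast_lt_one_iff

theorem norm_int_le_of_dvd {k : ℤ} (h : (p : ℤ) ∣ k) : ‖(k : ℚ_[p])‖ ≤ (p : ℝ)⁻¹ := by
  have := (Padic.norm_int_le_pow_iff_dvd (p := p) k 1).2 (by simpa using h)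
  simpa using this

/-- a `p`-adic number of norm less than `p` is integral -/
theorem norm_le_one_of_lt {a : ℚ_[p]} (h : ‖a‖ < p) : ‖a‖ ≤ 1 := by
  have := (Padic.norm_le_pow_iff_norm_lt_pow_add_one a 0).2 (by simpa using h)
  simpa using this

/-- an integral `p`-adic number is congruent to an integer -/
theorem exists_int_sub {a : ℚ_[p]} (h : ‖a‖ ≤ 1) : ∃ k : ℤ, ‖a - k‖ ≤ (p : ℝ)⁻¹ := by
  let x : ℤ_[p] := ⟨a, h⟩
  have h1 := PadicInt.appr_spec 1 x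
  rw [← PadicInt.norm_le_pow_iff_mem_span_pow] at h1
  refine ⟨(x.appr 1 : ℤ), ?_⟩
  have h2 : ‖x - (x.appr 1 : ℤ_[p])‖ = ‖a - ((x.appr 1 : ℤ) : ℚ_[p])‖ := by
    rw [PadicInt.norm_def]
    congr 1
  rw [← h2]
  simpa using h1

end Pool.Agent.H55.Tilt
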